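import Mathlib
import Pool.Agent.H335R2.MThm

/-!
# What follows if `1, e, π` are linearly dependent

Let `𝓛` be the space of all linear combinations of `1` and logarithms of algebraic numbers, with algebraic
coefficients, and `V` the space of all linear combinations of `1, e, π` with algebraic coefficients. If one of
`π + e`, `π - e`, `π / e` is algebraic, then `1, e, π` are linearly dependent over the algebraic numbers. If `1, e, π`
are linearly dependent over the algebraic numbers, then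

(1) for every transcendental `u ∈ V` and all logarithms `λ_1, …, λ_n` of algebraic numbers such that
`π i, λ_1, …, λ_n` are linearly independent over `ℚ`, the numbers `1, u, λ_1, …, λ_n` are linearly independent over
the algebraic numbers; hence `exp u`, `u ∈ V`, is transcendental unless `u` is a rational multiple of `π i`
(for instance `e ^ e` and `e ^ (γ e)`, `γ ≠ 0` algebraic, `cos e` are transcendental);

(2) all `y ∈ 𝓛` for which `u y ∈ 𝓛` for some transcendental `u ∈ V` (which may depend on `y`) lie in a space of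
dimension two over the algebraic numbers, which contains `1`;

(3) at most one of the sets `{2 ^ e, 2 ^ π}`, `{3 ^ e, 3 ^ π}`, `{e ^ (π e), e ^ (e ^ 2), e ^ (π ^ 2)}` contains an
algebraic number, and the same for `{α ^ u}`, `{β ^ u}`, `u ∈ V` transcendental, if `α`, `β` are multiplicatively
independent.

So each of these statements holds unless `1, e, π` are linearly independent over the algebraic numbers.
The tools are Baker's theorem and the strong six exponentials theorem of D. Roy.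
-/

set_option autoImplicit false

open Complex Pool.Agent.H335R2 Pool.Agent.H301R2.SSE

namespace Pool.Agent.Results.MP_a2f59b_nt.AlgebraicExponentials

/-- the linear combinations of `1, e, π` with algebraic coefficients -/
def V : Set ℂ :=
  {u | ∃ a b c : ℂ, IsAlgebraic ℚ a ∧ IsAlgebraic ℚ b ∧ IsAlgebraic ℚ c ∧
    u = a + b * exp 1 + c * Real.pi}

/-- the space of all linear combinations of `1` and of logarithms of algebraic numbers, with algebraic
coefficients -/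
noncomputable def 𝓛 : Submodule (algebraicClosure ℚ ℂ) ℂ :=
  Submodule.span (algebraicClosure ℚ ℂ) ({1} ∪ {z : ℂ | IsAlgebraic ℚ (exp z)})

/-- `x, y, z` are linearly dependent over the algebraic numbers -/
def Dependent (x y z : ℂ) : Prop :=
  ∃ a b c : ℂ, IsAlgebraic ℚ a ∧ IsAlgebraic ℚ b ∧ IsAlgebraic ℚ c ∧
    ¬ (a = 0 ∧ b = 0 ∧ c = 0) ∧ a * x + b * y + c * z = 0

theorem e_transcendental : Transcendental ℚ (exp 1) :=
  Pool.Agent.H340R2.LW.transcendental_exp_one_complex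

theorem alg_of_lin {x a b : ℂ} (hx : Transcendental ℚ x) (ha : IsAlgebraic ℚ a) (hb : IsAlgebraic ℚ b)
    (h : a + b * x = 0) : b = 0 := by
  by_contra hb0
  apply hx
  have : x = -a / b := by
    rw [eq_div_iff hb0]; linear_combination h
  rw [this, div_eq_mul_inv]
  exact ha.neg.mul hb.inv

/-- if `1, e, π` are dependent then `e = p + q π` -/
theorem exists_rep (h : Dependent 1 (exp 1) Real.pi) :
    ∃ p q : ℂ, IsAlgebraic ℚ p ∧ IsAlgebraic ℚ q ∧ exp 1 = p + q * Real.pi := by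
  obtain ⟨a, b, c, ha, hb, hc, hne, h⟩ := h
  by_cases hb0 : b = 0
  · exfalso
    rw [hb0] at h
    have hc0 : c = 0 := alg_of_lin piC_transcendental ha hc (by linear_combination h)
    apply hne
    refine ⟨?_, hb0, hc0⟩
    rw [hc0] at h
    simpa using h
  · refine ⟨-a / b, -c / b, ?_, ?_, ?_⟩
    · rw [div_eq_mul_inv]; exact ha.neg.mul hb.inv
    · rw [div_eq_mul_inv]; exact hc.neg.mul hb.inv
    · field_simp
      linear_combination h

/-- the elements of `V` are of the form `p + q π` -/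
theorem rep_V (h : Dependent 1 (exp 1) Real.pi) {u : ℂ} (hu : u ∈ V) :
    ∃ p q : ℂ, IsAlgebraic ℚ p ∧ IsAlgebraic ℚ q ∧ u = p + q * Real.pi := by
  obtain ⟨p, q, hp, hq, hpq⟩ := exists_rep h
  obtain ⟨a, b, c, ha, hb, hc, rfl⟩ := hu
  refine ⟨a + b * p, b * q + c, ha.add (hb.mul hp), (hb.mul hq).add hc, ?_⟩
  rw [hpq]; ring

theorem q_ne {u p q : ℂ} (hu : Transcendental ℚ u) (hp : IsAlgebraic ℚ p)
    (h : u = p + q * Real.pi) : q ≠ 0 := by
  rintro rfl
  apply hu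
  rw [h, zero_mul, add_zero]
  exact hp

theorem part1 (h : Dependent 1 (exp 1) Real.pi) (n : ℕ) (l : Fin n → ℂ)
    (hl : ∀ i, IsAlgebraic ℚ (exp (l i)))
    (hli : LinearIndependent ℚ (Fin.cons ((Real.pi : ℂ) * I) l : Fin (n + 1) → ℂ)) (u : ℂ) (hu : u ∈ V)
    (hut : Transcendental ℚ u) (a b : ℂ) (β : Fin n → ℂ) (ha : IsAlgebraic ℚ a)
    (hb : IsAlgebraic ℚ b) (hβ : ∀ i, IsAlgebraic ℚ (β i)) (hs : a + b * u + ∑ i, β i * l i = 0) :
    a = 0 ∧ b = 0 ∧ ∀ i, β i = 0 := by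
  obtain ⟨p, q, hp, hq, rfl⟩ := rep_V h hu
  have hq0 := q_ne hut hp rfl
  have hI := Pool.Agent.H340R2.LW.isAlgebraic_I
  obtain ⟨h1, h2⟩ := baker_inhom (Fin.cons ((Real.pi : ℂ) * I) l : Fin (n + 1) → ℂ) (by
      intro i
      refine Fin.cases ?_ (fun j => ?_) i
      · rw [Fin.cons_zero]; exact alg_neg_one_exp
      · rw [Fin.cons_succ]; exact hl j) hli (a + b * p) (ha.add (hb.mul hp))
    (Fin.cons (-(b * q * I)) β) (by
      intro i
      refine Fin.cases ?_ (fun j => ?_) i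
      · rw [Fin.cons_zero]; exact ((hb.mul hq).mul hI).neg
      · rw [Fin.cons_succ]; exact hβ j) (by
      rw [Fin.sum_univ_succ]
      simp only [Fin.cons_zero, Fin.cons_succ]
      have : -(b * q * I) * (Real.pi * I) = b * q * Real.pi := by
        linear_combination (-(b * q * Real.pi)) * I_mul_I
      rw [this]
      linear_combination hs)
  have h3 := h2 0
  rw [Fin.cons_zero, neg_eq_zero] at h3
  have hb0 : b = 0 := by
    rcases mul_eq_zero.1 h3 with h3 | h3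
    · rcases mul_eq_zero.1 h3 with h3 | h3
      · exact h3
      · exact absurd h3 hq0
    · exact absurd h3 I_ne_zero
  refine ⟨?_, hb0, fun i => ?_⟩
  · rw [hb0, zero_mul, add_zero] at h1
    exact h1
  · have := h2 i.succ
    rwa [Fin.cons_succ] at this

theorem part1' (h : Dependent 1 (exp 1) Real.pi) (u : ℂ) (hu : u ∈ V)
    (he : IsAlgebraic ℚ (exp u)) : ∃ r : ℚ, u = r * (Real.pi * I) := by
  by_cases hut : Transcendental ℚ u
  · by_contra hcon
    push Not at hcon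
    have hpi0 : (Real.pi : ℂ) * I ≠ 0 :=
      mul_ne_zero (by exact_mod_cast Real.pi_ne_zero) I_ne_zero
    have hli : LinearIndependent ℚ (Fin.cons ((Real.pi : ℂ) * I) ![u] : Fin 2 → ℂ) := by
      have e : (Fin.cons ((Real.pi : ℂ) * I) ![u] : Fin 2 → ℂ) = ![(Real.pi : ℂ) * I, u] := rfl
      rw [e, LinearIndependent.pair_iff]
      intro s t hst
      rw [Algebra.smul_def, Algebra.smul_def] at hst
      simp only [eq_ratCast] at hst
      by_cases ht : t = 0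
      · rw [ht] at hst
        refine ⟨?_, ht⟩
        have h1 : (s : ℂ) * ((Real.pi : ℂ) * I) = 0 := by simpa using hst
        exact_mod_cast (mul_eq_zero.1 h1).resolve_right hpi0
      · exfalso
        apply hcon (-s / t)
        have ht' : (t : ℂ) ≠ 0 := by exact_mod_cast ht
        push_cast
        field_simp
        linear_combination hst
    have := (part1 h 1 ![u] (by intro i; fin_cases i; exact he) hli u hu hut 0 1 ![-1]
      isAlgebraic_zero isAlgebraic_one (by intro i; fin_cases i; exact isAlgebraic_one.neg)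
      (by simp)).2.1
    exact one_ne_zero this
  · rw [Transcendental, not_not] at hut
    refine ⟨0, ?_⟩
    by_contra hu0
    push_cast at hu0
    rw [zero_mul] at hu0
    exact Pool.Agent.H340R2.LW.transcendental_cexp u hut hu0 he

theorem pi_mem_of (y : ℂ) {u p q : ℂ} (hy : y ∈ Lt) (hp : IsAlgebraic ℚ p) (hq : IsAlgebraic ℚ q)
    (hq0 : q ≠ 0) (hu : u = p + q * Real.pi) (h : u * y ∈ Lt) : (Real.pi : ℂ) * y ∈ Lt := by
  have e : (Real.pi : ℂ) * y = q⁻¹ * (u * y - p * y) := by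
    rw [hu]
    field_simp
    ring
  rw [e]
  exact Lt_mul hq.inv (Lt.sub_mem h (Lt_mul hp hy))

theorem part2 (h : Dependent 1 (exp 1) Real.pi) (y₁ y₂ : ℂ) (h₁ : y₁ ∈ 𝓛) (h₂ : y₂ ∈ 𝓛) (u₁ u₂ : ℂ)
    (hu₁ : u₁ ∈ V) (hu₂ : u₂ ∈ V) (ht₁ : Transcendental ℚ u₁) (ht₂ : Transcendental ℚ u₂)
    (h₃ : u₁ * y₁ ∈ 𝓛) (h₄ : u₂ * y₂ ∈ 𝓛) : Dependent 1 y₁ y₂ := by
  by_contra hcon
  obtain ⟨p₁, q₁, hp₁, hq₁, e₁⟩ := rep_V h hu₁
  obtain ⟨p₂, q₂, hp₂, hq₂, e₂⟩ := rep_V h hu₂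
  refine pairM h₁ (pi_mem_of y₁ h₁ hp₁ hq₁ (q_ne ht₁ hp₁ e₁) e₁ h₃) h₂
    (pi_mem_of y₂ h₂ hp₂ hq₂ (q_ne ht₂ hp₂ e₂) e₂ h₄) ?_
  intro a b c ha hb hc habc
  by_contra hne
  exact hcon ⟨a, b, c, ha, hb, hc, hne, by rw [mul_one]; exact habc⟩

/-- the exponentials that occur in the problem -/
theorem mem_V_e : exp 1 ∈ V := ⟨0, 1, 0, isAlgebraic_zero, isAlgebraic_one, isAlgebraic_zero, by ring⟩

theorem mem_V_pi : (Real.pi : ℂ) ∈ V :=
  ⟨0, 0, 1, isAlgebraic_zero, isAlgebraic_zero, isAlgebraic_one, by ring⟩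

/-- `{x, y}`-type statement: at most one of three sets of complex numbers contains an algebraic number -/
def AtMostOne (A B C : Set ℂ) : Prop :=
  ¬ ((∃ a ∈ A, IsAlgebraic ℚ a) ∧ ∃ b ∈ B, IsAlgebraic ℚ b) ∧
    ¬ ((∃ a ∈ A, IsAlgebraic ℚ a) ∧ ∃ c ∈ C, IsAlgebraic ℚ c) ∧
    ¬ ((∃ b ∈ B, IsAlgebraic ℚ b) ∧ ∃ c ∈ C, IsAlgebraic ℚ c)

/-- the powers `α ^ u`, `u ∈ V` transcendental, where `l` is a logarithm of `α` -/
def powers (l : ℂ) : Set ℂ := {z | ∃ u ∈ V, Transcendental ℚ u ∧ z = exp (u * l)}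

/-- the numbers `e ^ (u v)`, `u, v ∈ V` transcendental; for instance `e ^ (π e)`, `e ^ (e ^ 2)`, `e ^ (π ^ 2)` -/
def products : Set ℂ :=
  {z | ∃ u ∈ V, ∃ v ∈ V, Transcendental ℚ u ∧ Transcendental ℚ v ∧ z = exp (u * v)}

theorem V_sub (h : Dependent 1 (exp 1) Real.pi) {u : ℂ} (hu : u ∈ V) : u ∈ 𝓛 := by
  obtain ⟨p, q, hp, hq, e⟩ := rep_V h hu
  have h1 : (Real.pi : ℂ) ∈ Lt :=
    lt1 (a := 0) (b := -I) isAlgebraic_zero Pool.Agent.H340R2.LW.isAlgebraic_I.neg alg_neg_one_exp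
      (by linear_combination (Real.pi : ℂ) * Complex.I_mul_I)
  rw [e]
  exact Lt.add_mem (Lt_alg hp) (Lt_mul hq h1)

theorem not_dep_pi_log (h : Dependent 1 (exp 1) Real.pi) {v l : ℂ} (hv : v ∈ V)
    (hvt : Transcendental ℚ v) (hl : IsAlgebraic ℚ (exp l)) (hl0 : ∀ r : ℚ, l ≠ r * (Real.pi * I)) :
    ¬ Dependent 1 v l := by
  rintro ⟨a, b, c, ha, hb, hc, hne, hs⟩
  have hpi0 : (Real.pi : ℂ) * I ≠ 0 :=
    mul_ne_zero (by exact_mod_cast Real.pi_ne_zero) I_ne_zero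
  have hli : LinearIndependent ℚ (Fin.cons ((Real.pi : ℂ) * I) ![l] : Fin 2 → ℂ) := by
    have e : (Fin.cons ((Real.pi : ℂ) * I) ![l] : Fin 2 → ℂ) = ![(Real.pi : ℂ) * I, l] := rfl
    rw [e, LinearIndependent.pair_iff]
    intro s t hst
    rw [Algebra.smul_def, Algebra.smul_def] at hst
    simp only [eq_ratCast] at hst
    by_cases ht : t = 0
    · rw [ht] at hst
      refine ⟨?_, ht⟩
      have h1 : (s : ℂ) * ((Real.pi : ℂ) * I) = 0 := by simpa using hst
      exact_mod_cast (mul_eq_zero.1 h1).resolve_right hpi0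
    · exfalso
      apply hl0 (-s / t)
      have ht' : (t : ℂ) ≠ 0 := by exact_mod_cast ht
      push_cast
      field_simp
      linear_combination hst
  obtain ⟨h1, h2, h3⟩ := part1 h 1 ![l] (by intro i; fin_cases i; exact hl) hli v hv hvt a b ![c] ha hb
    (by intro i; fin_cases i; exact hc) (by simpa using hs)
  exact hne ⟨h1, h2, h3 0⟩

theorem not_dep_logs {l m : ℂ} (hl : IsAlgebraic ℚ (exp l)) (hm : IsAlgebraic ℚ (exp m))
    (hli : ∀ p q : ℚ, (p : ℂ) * l + (q : ℂ) * m = 0 → p = 0 ∧ q = 0) : ¬ Dependent 1 l m := by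
  rintro ⟨a, b, c, ha, hb, hc, hne, hs⟩
  exact hne (bi2 hl hm hli ha hb hc (by linear_combination hs))

theorem part3 (h : Dependent 1 (exp 1) Real.pi) {l m : ℂ} (hl : IsAlgebraic ℚ (exp l))
    (hm : IsAlgebraic ℚ (exp m)) (hlr : ∀ r : ℚ, l ≠ r * (Real.pi * I))
    (hmr : ∀ r : ℚ, m ≠ r * (Real.pi * I))
    (hli : ∀ p q : ℚ, (p : ℂ) * l + (q : ℂ) * m = 0 → p = 0 ∧ q = 0) :
    AtMostOne (powers l) (powers m) products := by
  refine ⟨?_, ?_, ?_⟩
  · rintro ⟨⟨_, ⟨u, hu, hut, rfl⟩, h1⟩, _, ⟨v, hv, hvt, rfl⟩, h2⟩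
    exact not_dep_logs hl hm hli
      (part2 h l m (Lt_log hl) (Lt_log hm) u v hu hv hut hvt (Lt_log h1) (Lt_log h2))
  · rintro ⟨⟨_, ⟨u, hu, hut, rfl⟩, h1⟩, _, ⟨v, hv, w, hw, hvt, hwt, rfl⟩, h2⟩
    exact not_dep_pi_log h hw hwt hl hlr
      (part2 h w l (V_sub h hw) (Lt_log hl) v u hv hu hvt hut (Lt_log h2) (Lt_log h1))
  · rintro ⟨⟨_, ⟨u, hu, hut, rfl⟩, h1⟩, _, ⟨v, hv, w, hw, hvt, hwt, rfl⟩, h2⟩
    exact not_dep_pi_log h hw hwt hm hmr
      (part2 h w m (V_sub h hw) (Lt_log hm) v u hv hu hvt hut (Lt_log h2) (Lt_log h1))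

/-! ### real numbers -/

theorem real_ne {x : ℝ} (hx : x ≠ 0) (r : ℚ) : (x : ℂ) ≠ r * (Real.pi * I) := by
  intro h
  have h1 := real_piI hx 1 (-r) (by push_cast; linear_combination h)
  exact one_ne_zero h1.1

theorem two_three {a b : ℕ} (h : (2 : ℝ) ^ a = 3 ^ b) : a = 0 ∧ b = 0 := by
  have h1 : 2 ^ a = 3 ^ b := by exact_mod_cast h
  have hc : Nat.Coprime (2 ^ a) (3 ^ b) := Nat.Coprime.pow _ _ (by norm_num)
  rw [← h1, Nat.coprime_self] at hc
  have ha : a = 0 := by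
    by_contra h0
    have := Nat.one_lt_pow h0 (show 1 < 2 by norm_num)
    omega
  have hb : b = 0 := by
    by_contra h0
    have := Nat.one_lt_pow h0 (show 1 < 3 by norm_num)
    omega
  exact ⟨ha, hb⟩

theorem log_indep (p q : ℚ) (h : (p : ℂ) * (Real.log 2 : ℂ) + (q : ℂ) * (Real.log 3 : ℂ) = 0) :
    p = 0 ∧ q = 0 := by
  have h1 : (p : ℝ) * Real.log 2 + (q : ℝ) * Real.log 3 = 0 := by exact_mod_cast h
  have h2 : ((p.num * q.den : ℤ) : ℝ) * Real.log 2 + ((q.num * p.den : ℤ) : ℝ) * Real.log 3 = 0 := by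
    have hp : (p : ℝ) * p.den = p.num := by exact_mod_cast Rat.mul_den_eq_num p
    have hq : (q : ℝ) * q.den = q.num := by exact_mod_cast Rat.mul_den_eq_num q
    push_cast
    rw [← hp, ← hq]
    linear_combination (p.den * q.den : ℝ) * h1
  have hl2 : 0 < Real.log 2 := Real.log_pos (by norm_num)
  have hl3 : 0 < Real.log 3 := Real.log_pos (by norm_num)
  obtain ⟨m, hm⟩ : ∃ m : ℤ, m = p.num * q.den := ⟨_, rfl⟩
  obtain ⟨n, hn⟩ : ∃ n : ℤ, n = q.num * p.den := ⟨_, rfl⟩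
  rw [← hm, ← hn] at h2
  have key : ∀ a b : ℕ, (a : ℝ) * Real.log 2 = b * Real.log 3 → a = 0 ∧ b = 0 := by
    intro a b hab
    apply two_three
    rw [← Real.log_pow, ← Real.log_pow] at hab
    exact Real.log_injOn_pos (Set.mem_Ioi.2 (by positivity)) (Set.mem_Ioi.2 (by positivity)) hab
  have h3 : m = 0 ∧ n = 0 := by
    rcases le_total 0 m with hm0 | hm0
    · have hn0 : n ≤ 0 := by
        by_contra hcon
        push Not at hcon
        have h4 : (0 : ℝ) < n := by exact_mod_cast hcon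
        have h5 : (0 : ℝ) ≤ m := by exact_mod_cast hm0
        nlinarith [mul_pos h4 hl3, mul_nonneg h5 hl2.le]
      obtain ⟨a, ha⟩ := Int.eq_ofNat_of_zero_le hm0
      obtain ⟨b, hb⟩ := Int.eq_ofNat_of_zero_le (show 0 ≤ -n by omega)
      have h6 := key a b (by
        have ha' : (m : ℝ) = a := by exact_mod_cast ha
        have hb' : -(n : ℝ) = b := by exact_mod_cast hb
        rw [← ha', ← hb']
        linear_combination h2)
      omega
    · have hn0 : 0 ≤ n := by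
        by_contra hcon
        push Not at hcon
        have h4 : (n : ℝ) < 0 := by exact_mod_cast hcon
        have h5 : (m : ℝ) ≤ 0 := by exact_mod_cast hm0
        nlinarith [mul_neg_of_neg_of_pos h4 hl3, mul_nonpos_of_nonpos_of_nonneg h5 hl2.le]
      obtain ⟨a, ha⟩ := Int.eq_ofNat_of_zero_le (show 0 ≤ -m by omega)
      obtain ⟨b, hb⟩ := Int.eq_ofNat_of_zero_le hn0
      have h6 := key a b (by
        have ha' : -(m : ℝ) = a := by exact_mod_cast ha
        have hb' : (n : ℝ) = b := by exact_mod_cast hb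
        rw [← ha', ← hb']
        linear_combination -h2)
      omega
  rw [hm, hn] at h3
  have hpd : (p.den : ℤ) ≠ 0 := by exact_mod_cast p.den_nz
  have hqd : (q.den : ℤ) ≠ 0 := by exact_mod_cast q.den_nz
  exact ⟨Rat.num_eq_zero.1 ((mul_eq_zero.1 h3.1).resolve_right hqd),
    Rat.num_eq_zero.1 ((mul_eq_zero.1 h3.2).resolve_right hpd)⟩

theorem pow_real {α x : ℝ} (hα : 0 < α) :
    ((α ^ x : ℝ) : ℂ) = exp ((x : ℂ) * (Real.log α : ℂ)) := by
  rw [Real.rpow_def_of_pos hα, Complex.ofReal_exp]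
  push_cast
  ring_nf

/-- at most one of the three sets of real numbers contains an algebraic number -/
theorem real_sets (h : Dependent 1 (exp 1) Real.pi) :
    AtMostOne {((2 ^ Real.exp 1 : ℝ) : ℂ), ((2 ^ Real.pi : ℝ) : ℂ)}
      {((3 ^ Real.exp 1 : ℝ) : ℂ), ((3 ^ Real.pi : ℝ) : ℂ)}
      {((Real.exp (Real.pi * Real.exp 1) : ℝ) : ℂ), ((Real.exp (Real.exp 1 ^ 2) : ℝ) : ℂ),
        ((Real.exp (Real.pi ^ 2) : ℝ) : ℂ)} := by
  have hE : ((Real.exp 1 : ℝ) : ℂ) = exp 1 := by push_cast; rfl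
  have hmem : ∀ α : ℝ, 0 < α → ∀ z ∈ ({((α ^ Real.exp 1 : ℝ) : ℂ), ((α ^ Real.pi : ℝ) : ℂ)} : Set ℂ),
      z ∈ powers (Real.log α : ℂ) := by
    rintro α hα z (rfl | rfl)
    · exact ⟨exp 1, mem_V_e, e_transcendental, by rw [pow_real hα, hE]⟩
    · exact ⟨Real.pi, mem_V_pi, piC_transcendental, by rw [pow_real hα]⟩
  have hmem3 : ∀ z ∈ ({((Real.exp (Real.pi * Real.exp 1) : ℝ) : ℂ),
      ((Real.exp (Real.exp 1 ^ 2) : ℝ) : ℂ), ((Real.exp (Real.pi ^ 2) : ℝ) : ℂ)} : Set ℂ),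
      z ∈ products := by
    rintro z (rfl | rfl | rfl)
    · exact ⟨Real.pi, mem_V_pi, exp 1, mem_V_e, piC_transcendental, e_transcendental, by
        rw [Complex.ofReal_exp, Complex.ofReal_mul, hE]⟩
    · exact ⟨exp 1, mem_V_e, exp 1, mem_V_e, e_transcendental, e_transcendental, by
        rw [Complex.ofReal_exp, Complex.ofReal_pow, hE, sq]⟩
    · exact ⟨Real.pi, mem_V_pi, Real.pi, mem_V_pi, piC_transcendental, piC_transcendental, by
        rw [Complex.ofReal_exp, Complex.ofReal_pow, sq]⟩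
  have halg : ∀ α : ℝ, 0 < α → IsAlgebraic ℚ ((α : ℝ) : ℂ) → IsAlgebraic ℚ (exp (Real.log α : ℂ)) := by
    intro α hα h1
    rwa [← Complex.ofReal_exp, Real.exp_log hα]
  have h2 : IsAlgebraic ℚ (exp (Real.log 2 : ℂ)) := halg 2 (by norm_num) (by
    have := isAlgebraic_ratCast ℚ (A := ℂ) 2
    simpa using this)
  have h3 : IsAlgebraic ℚ (exp (Real.log 3 : ℂ)) := halg 3 (by norm_num) (by
    have := isAlgebraic_ratCast ℚ (A := ℂ) 3
    simpa using this)
  obtain ⟨g1, g2, g3⟩ := part3 h h2 h3 (real_ne (Real.log_pos (by norm_num)).ne')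
    (real_ne (Real.log_pos (by norm_num)).ne') log_indep
  refine ⟨?_, ?_, ?_⟩
  · rintro ⟨⟨a, ha, ha'⟩, b, hb, hb'⟩
    exact g1 ⟨⟨a, hmem 2 (by norm_num) a ha, ha'⟩, b, hmem 3 (by norm_num) b hb, hb'⟩
  · rintro ⟨⟨a, ha, ha'⟩, b, hb, hb'⟩
    exact g2 ⟨⟨a, hmem 2 (by norm_num) a ha, ha'⟩, b, hmem3 b hb, hb'⟩
  · rintro ⟨⟨a, ha, ha'⟩, b, hb, hb'⟩
    exact g3 ⟨⟨a, hmem 3 (by norm_num) a ha, ha'⟩, b, hmem3 b hb, hb'⟩

/-- if `π + e`, `π - e` or `π / e` is algebraic then `1, e, π` are dependent -/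
theorem dependent_of (z : ℝ) (hz : z ∈ ({Real.pi + Real.exp 1, Real.pi - Real.exp 1,
    Real.pi / Real.exp 1} : Set ℝ)) (hza : IsAlgebraic ℚ z) : Dependent 1 (exp 1) Real.pi := by
  have hE : ((Real.exp 1 : ℝ) : ℂ) = exp 1 := by push_cast; rfl
  have he0 : exp 1 ≠ 0 := exp_ne_zero 1
  rcases hz with rfl | rfl | rfl
  · refine ⟨-((Real.pi + Real.exp 1 : ℝ) : ℂ), 1, 1, (algC hza).neg, isAlgebraic_one, isAlgebraic_one,
      fun h => one_ne_zero h.2.1, ?_⟩
    rw [Complex.ofReal_add, hE]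
    ring
  · refine ⟨-((Real.pi - Real.exp 1 : ℝ) : ℂ), -1, 1, (algC hza).neg, isAlgebraic_one.neg,
      isAlgebraic_one, fun h => one_ne_zero h.2.2, ?_⟩
    rw [Complex.ofReal_sub, hE]
    ring
  · refine ⟨0, ((Real.pi / Real.exp 1 : ℝ) : ℂ), -1, isAlgebraic_zero, algC hza, isAlgebraic_one.neg,
      fun h => one_ne_zero (neg_eq_zero.1 h.2.2), ?_⟩
    rw [Complex.ofReal_div, hE]
    field_simp
    ring

/-- Either `1, e, π` are linearly independent over the algebraic numbers, and so `π + e`, `π - e`, `π / e`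
transcendental, or all the statements (1), (2), (3) of the beginning of the file hold. -/
theorem result : (¬ Dependent 1 (exp 1) Real.pi ∧ Transcendental ℚ (Real.pi + Real.exp 1) ∧
      Transcendental ℚ (Real.pi - Real.exp 1) ∧ Transcendental ℚ (Real.pi / Real.exp 1)) ∨
    ((∀ (n : ℕ) (l : Fin n → ℂ), (∀ i, IsAlgebraic ℚ (exp (l i))) →
        LinearIndependent ℚ (Fin.cons ((Real.pi : ℂ) * I) l : Fin (n + 1) → ℂ) →
        ∀ u ∈ V, Transcendental ℚ u → ∀ (a b : ℂ) (β : Fin n → ℂ), IsAlgebraic ℚ a →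
        IsAlgebraic ℚ b → (∀ i, IsAlgebraic ℚ (β i)) → a + b * u + ∑ i, β i * l i = 0 →
        a = 0 ∧ b = 0 ∧ ∀ i, β i = 0) ∧
      (∀ u ∈ V, IsAlgebraic ℚ (exp u) → ∃ r : ℚ, u = r * (Real.pi * I)) ∧
      (∀ y₁ ∈ 𝓛, ∀ y₂ ∈ 𝓛, ∀ u₁ ∈ V, ∀ u₂ ∈ V, Transcendental ℚ u₁ → Transcendental ℚ u₂ →
        u₁ * y₁ ∈ 𝓛 → u₂ * y₂ ∈ 𝓛 → Dependent 1 y₁ y₂) ∧
      (∀ l m : ℂ, IsAlgebraic ℚ (exp l) → IsAlgebraic ℚ (exp m) → (∀ r : ℚ, l ≠ r * (Real.pi * I)) →
        (∀ r : ℚ, m ≠ r * (Real.pi * I)) →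
        (∀ p q : ℚ, (p : ℂ) * l + (q : ℂ) * m = 0 → p = 0 ∧ q = 0) →
        AtMostOne (powers l) (powers m) products) ∧
      AtMostOne {((2 ^ Real.exp 1 : ℝ) : ℂ), ((2 ^ Real.pi : ℝ) : ℂ)}
        {((3 ^ Real.exp 1 : ℝ) : ℂ), ((3 ^ Real.pi : ℝ) : ℂ)}
        {((Real.exp (Real.pi * Real.exp 1) : ℝ) : ℂ), ((Real.exp (Real.exp 1 ^ 2) : ℝ) : ℂ),
          ((Real.exp (Real.pi ^ 2) : ℝ) : ℂ)}) := by
  by_cases h : Dependent 1 (exp 1) Real.pi
  · right
    exact ⟨fun n l hl hli u hu hut a b β ha hb hβ hs => part1 h n l hl hli u hu hut a b β ha hb hβ hs,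
      fun u hu he => part1' h u hu he,
      fun y₁ h₁ y₂ h₂ u₁ hu₁ u₂ hu₂ ht₁ ht₂ h₃ h₄ => part2 h y₁ y₂ h₁ h₂ u₁ u₂ hu₁ hu₂ ht₁ ht₂ h₃ h₄,
      fun l m hl hm hlr hmr hli => part3 h hl hm hlr hmr hli, real_sets h⟩
  · exact Or.inl ⟨h, fun h1 => h (dependent_of _ (by simp) h1), fun h1 => h (dependent_of _ (by simp) h1),
      fun h1 => h (dependent_of _ (by simp) h1)⟩

end Pool.Agent.Results.MP_a2f59b_nt.AlgebraicExponentials
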