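import Pool.Agent.X139.BT.Main2

/-!
# Baker's theorem with transcendental exponents

Baker's theorem says that `∏ α_s ^ x_s` is transcendental for multiplicatively independent positive
algebraic numbers `α_s` and algebraic exponents `x_s` that are not all rational. Here the exponents
(and a further factor `e ^ c`) come from a finite dimensional space `V` of real numbers over the real
algebraic numbers, for instance the one spanned by `1, π, e, log π, π log π, e log π, π ^ 2`: the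
statement remains true if finitely many indices are left out (or have algebraic exponents), at most
`N (N - 1)` of them if `V` is spanned by `N` numbers and `1 ∈ V`. For quotients of elements of `V`
at most `N ^ 2 (N - 1)` indices have to be left out.
-/

set_option autoImplicit false

namespace Pool.Agent.Results.MP_a2f59b_nt.BakerTranscendentalExponents

open Finset

/-- the combinations of the real numbers `v k` with real algebraic coefficients -/
def V {N : ℕ} (v : Fin N → ℝ) : Set ℝ :=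
  {x | ∃ β : Fin N → ℝ, (∀ k, IsAlgebraic ℚ (β k)) ∧ x = ∑ k, β k * v k}

/-- the seven numbers `1, π, e, log π, π log π, e log π, π ^ 2` -/
noncomputable def w : Fin 7 → ℝ :=
  ![1, Real.pi, Real.exp 1, Real.log Real.pi, Real.pi * Real.log Real.pi,
    Real.exp 1 * Real.log Real.pi, Real.pi ^ 2]

/-- the product `e ^ a₀ (e ^ π) ^ a₁ (e ^ e) ^ a₂ π ^ a₃ (π ^ π) ^ a₄ (π ^ e) ^ a₅ (e ^ (π ^ 2)) ^ a₆` -/
noncomputable def P (a : Fin 7 → ℝ) : ℝ :=
  Real.exp (a 0) * Real.exp Real.pi ^ a 1 * (Real.exp 1 ^ Real.exp 1) ^ a 2 * Real.pi ^ a 3 *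
    (Real.pi ^ Real.pi) ^ a 4 * (Real.pi ^ Real.exp 1) ^ a 5 * Real.exp (Real.pi ^ 2) ^ a 6

theorem P_eq (a : Fin 7 → ℝ) : P a = Real.exp (∑ k, a k * w k) := by
  have hpi := Real.pi_pos
  have h1 : Real.exp Real.pi ^ a 1 = Real.exp (a 1 * Real.pi) := by
    rw [← Real.exp_mul, mul_comm]
  have h2 : (Real.exp 1 ^ Real.exp 1) ^ a 2 = Real.exp (a 2 * Real.exp 1) := by
    rw [← Real.exp_mul, ← Real.exp_mul]
    congr 1
    ring
  have h3 : Real.pi ^ a 3 = Real.exp (a 3 * Real.log Real.pi) := by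
    rw [Real.rpow_def_of_pos hpi, mul_comm]
  have h4 : (Real.pi ^ Real.pi) ^ a 4 = Real.exp (a 4 * (Real.pi * Real.log Real.pi)) := by
    rw [Real.rpow_def_of_pos hpi, ← Real.exp_mul]
    congr 1
    ring
  have h5 : (Real.pi ^ Real.exp 1) ^ a 5 = Real.exp (a 5 * (Real.exp 1 * Real.log Real.pi)) := by
    rw [Real.rpow_def_of_pos hpi, ← Real.exp_mul]
    congr 1
    ring
  have h6 : Real.exp (Real.pi ^ 2) ^ a 6 = Real.exp (a 6 * Real.pi ^ 2) := by
    rw [← Real.exp_mul, mul_comm]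
  rw [P, h1, h2, h3, h4, h5, h6, ← Real.exp_add, ← Real.exp_add, ← Real.exp_add, ← Real.exp_add,
    ← Real.exp_add, ← Real.exp_add]
  congr 1
  rw [Fin.sum_univ_seven]
  have e0 : w 0 = 1 := rfl
  have e1 : w 1 = Real.pi := rfl
  have e2 : w 2 = Real.exp 1 := rfl
  have e3 : w 3 = Real.log Real.pi := rfl
  have e4 : w 4 = Real.pi * Real.log Real.pi := rfl
  have e5 : w 5 = Real.exp 1 * Real.log Real.pi := rfl
  have e6 : w 6 = Real.pi ^ 2 := rfl
  rw [e0, e1, e2, e3, e4, e5, e6, mul_one]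

/-- **Baker's theorem with transcendental exponents.** -/
theorem result :
    -- exponents in `V`
    (∀ (N : ℕ) (v : Fin N → ℝ), 1 ∈ V v → ∀ (ι : Type) (α : ι → ℝ), (∀ s, 0 < α s) →
      (∀ s, IsAlgebraic ℚ (α s)) → LinearIndependent ℚ (fun s => Real.log (α s)) →
      ∃ E : Finset ι, E.card ≤ N * (N - 1) ∧ (Real.pi ∈ V v → E.card + 1 ≤ N * (N - 1)) ∧
        ∀ (S : Finset ι) (x : ι → ℝ) (c : ℝ), (∀ s ∈ S, x s ∈ V v) → c ∈ V v →
          (∀ s ∈ S, s ∈ E → IsAlgebraic ℚ (x s)) →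
          ((∃ s ∈ S, Transcendental ℚ (x s)) →
            Transcendental ℚ ((∏ s ∈ S, α s ^ x s) * Real.exp c)) ∧
          ((∃ s ∈ S, Irrational (x s)) → Transcendental ℚ (∏ s ∈ S, α s ^ x s))) ∧
    -- quotients of elements of `V`
    (∀ (N : ℕ) (v : Fin N → ℝ) (ι : Type) (α : ι → ℝ), (∀ s, 0 < α s) →
      (∀ s, IsAlgebraic ℚ (α s)) → LinearIndependent ℚ (fun s => Real.log (α s)) →
      ∃ E : Finset ι, E.card ≤ N ^ 2 * (N - 1) ∧
        (1 ∈ V v → Real.pi ∈ V v → E.card + 2 ≤ N ^ 2 * (N - 1)) ∧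
        ∀ (S : Finset ι) (x : ι → ℝ) (b c : ℝ), (∀ s ∈ S, x s ∈ V v) → b ∈ V v → b ≠ 0 →
          c ∈ V v → (∀ s ∈ S, s ∈ E → IsAlgebraic ℚ (x s / b)) →
          ((∃ s ∈ S, Transcendental ℚ (x s / b)) →
            Transcendental ℚ ((∏ s ∈ S, α s ^ (x s / b)) * Real.exp (c / b))) ∧
          ((∃ s ∈ S, Irrational (x s / b)) → Transcendental ℚ (∏ s ∈ S, α s ^ (x s / b)))) ∧
    -- the primes and the seven numbers `w`
    (∃ E : Finset ℕ, E.card ≤ 41 ∧ ∀ (S : Finset ℕ) (x : ℕ → ℝ) (a : Fin 7 → ℝ),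
      (∀ p ∈ S, p.Prime) → (∀ p ∈ S, x p ∈ V w) → (∀ k, IsAlgebraic ℚ (a k)) →
      (∀ p ∈ S, p ∈ E → IsAlgebraic ℚ (x p)) →
      ((∃ p ∈ S, Transcendental ℚ (x p)) → Transcendental ℚ ((∏ p ∈ S, (p : ℝ) ^ x p) * P a)) ∧
      ((∃ p ∈ S, Irrational (x p)) → Transcendental ℚ (∏ p ∈ S, (p : ℝ) ^ x p))) ∧
    -- the primes and the exponents `a + b π + c e`
    (∃ E : Finset ℕ, E.card ≤ 5 ∧ ∀ (S : Finset ℕ) (a b c : ℕ → ℝ),
      (∀ p ∈ S, p.Prime ∧ IsAlgebraic ℚ (a p) ∧ IsAlgebraic ℚ (b p) ∧ IsAlgebraic ℚ (c p)) →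
      (∀ p ∈ S, p ∈ E → IsAlgebraic ℚ (a p + b p * Real.pi + c p * Real.exp 1)) →
      (∃ p ∈ S, Irrational (a p + b p * Real.pi + c p * Real.exp 1)) →
      Transcendental ℚ (∏ p ∈ S, (p : ℝ) ^ (a p + b p * Real.pi + c p * Real.exp 1))) := by
  refine ⟨?_, ?_, ?_, ?_⟩
  · intro N v h1 ι α h0 ha hli
    exact Pool.Agent.X139.BT.main2 v h1 α h0 ha hli
  · intro N v ι α h0 ha hli
    exact Pool.Agent.X139.BT.main v α h0 ha hli
  · obtain ⟨E, -, hE, h⟩ := Pool.Agent.X139.BT.primes_main w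
      (Pool.Agent.X139.BT.mem_Comb w 0)
    refine ⟨E, by have := hE (Pool.Agent.X139.BT.mem_Comb w 1); omega, ?_⟩
    intro S x a hS hx ha hxE
    have h2 := h S x (∑ k, a k * w k) hS hx ⟨a, ha, rfl⟩ hxE
    rw [P_eq]
    exact h2
  · obtain ⟨E, -, hE, h⟩ := Pool.Agent.X139.BT.primes_main ![1, Real.pi, Real.exp 1]
      (Pool.Agent.X139.BT.mem_Comb _ 0)
    refine ⟨E, by have := hE (Pool.Agent.X139.BT.mem_Comb _ 1); omega, ?_⟩
    intro S a b c hS hxE hirr
    refine (h S (fun p => a p + b p * Real.pi + c p * Real.exp 1) 0 (fun p hp => (hS p hp).1) ?_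
      ⟨0, fun _ => isAlgebraic_zero, by simp⟩ hxE).2 hirr
    intro p hp
    refine ⟨![a p, b p, c p], ?_, ?_⟩
    · intro k
      fin_cases k
      · exact (hS p hp).2.1
      · exact (hS p hp).2.2.1
      · exact (hS p hp).2.2.2
    · rw [Fin.sum_univ_three]
      simp

end Pool.Agent.Results.MP_a2f59b_nt.BakerTranscendentalExponents
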