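import Mathlib
import Pool.Agent.W252.BWFinal
import Pool.Agent.H335R2.MThm
import Pool.Agent.TH577.RF.Real

/-!
# Exponentials of the roots of quadratic equations over `ℚ(π i)`

Let `Λ` be the space of all logarithms of algebraic numbers which are algebraic over `ℚ(π)` (for instance `π i`).
(0) If one of the four numbers `π + e`, `π - e`, `π e`, `π / e` is algebraic then `π` and `e` are algebraically
dependent. If `π` and `e` are algebraically dependent then the following holds.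

(1) If `l₁, l₂ ∈ Λ` are linearly independent over `ℚ` and `w₁, w₂ ∈ ℚ + Λ` satisfy `l₁ w₂ = l₂ w₁`, then
`w₁ = r l₁`, `w₂ = r l₂` with a rational number `r`.

(2) If `ℓ` satisfies a relation `c ℓ ^ 2 + d π i ℓ + f (π i) ^ 2 + a ℓ + b π i = 0` with rational coefficients, not
all zero, then `exp ℓ` is transcendental, or `ℓ` is a rational multiple of `π i`.

(3) For all rational numbers `r > 0`, `s` the number `exp (√(s ^ 2 + r π ^ 2) - s)` is transcendental, and
`exp (r π ^ 2)` is transcendental for all rational `r ≠ 0`.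

The case of `e ^ (π ^ 2)` is the well known consequence of the theorem of Brownawell and Waldschmidt, from which all
is deduced.
-/

set_option autoImplicit false

open Complex
open Pool.Agent.H335R2 (piC_transcendental alg_neg_one_exp real_piI isAlgebraic_exp_rat algC)
open Pool.Agent.W243.TD (Al)
open Pool.Agent.TH577.RF (al_self al_of_alg real_al)

namespace Pool.Agent.Results.MP_a2f59b_nt.ConicExponentials

/-- the logarithms of algebraic numbers which are algebraic over `ℚ(π)` -/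
def Λ : Set ℂ :=
  {l | IsAlgebraic ℚ (exp l) ∧ IsAlgebraic (IntermediateField.adjoin ℚ {(Real.pi : ℂ)}) l}

/-- the sums of a rational number and an element of `Λ` -/
def QΛ : Set ℂ := {w | ∃ q : ℚ, ∃ l ∈ Λ, w = q + l}

/-- linear independence over the rational numbers -/
def Indep (x y : ℂ) : Prop := ∀ p q : ℚ, (p : ℂ) * x + (q : ℂ) * y = 0 → p = 0 ∧ q = 0

/-- `ℓ` lies on a rational conic through the origin, in terms of `π i` -/
def Conic (ℓ : ℂ) : Prop :=
  ∃ a b c d f : ℚ, ¬ (a = 0 ∧ b = 0 ∧ c = 0 ∧ d = 0 ∧ f = 0) ∧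
    (c : ℂ) * ℓ ^ 2 + d * (Real.pi * I) * ℓ + f * (Real.pi * I) ^ 2 + a * ℓ + b * (Real.pi * I) = 0

theorem lin_of {x y : ℂ} (h : Indep x y) : LinearIndependent ℚ ![x, y] := by
  rw [LinearIndependent.pair_iff]
  intro s t hst
  apply h
  rw [← hst, Algebra.smul_def, Algebra.smul_def]
  simp

theorem pi_al : Al (Real.pi : ℂ) ((Real.pi : ℂ) * I) :=
  (al_self (Real.pi : ℂ)).mul (al_of_alg Pool.Agent.H340R2.LW.isAlgebraic_I)

theorem piI_mem : (Real.pi : ℂ) * I ∈ Λ := ⟨alg_neg_one_exp, pi_al⟩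

theorem rat_mul_mem {l : ℂ} (h : l ∈ Λ) (q : ℚ) : (q : ℂ) * l ∈ Λ :=
  ⟨isAlgebraic_exp_rat h.1 q, (al_of_alg (isAlgebraic_ratCast ℚ q)).mul h.2⟩

theorem add_mem {l m : ℂ} (h : l ∈ Λ) (h' : m ∈ Λ) : l + m ∈ Λ :=
  ⟨by rw [exp_add]; exact h.1.mul h'.1, h.2.add h'.2⟩

theorem piI_ne : (Real.pi : ℂ) * I ≠ 0 :=
  mul_ne_zero (by exact_mod_cast Real.pi_ne_zero) I_ne_zero

theorem exp_rat_al (he : Al (Real.pi : ℂ) (exp 1)) (q : ℚ) : Al (Real.pi : ℂ) (exp (q : ℂ)) := by
  have h1 : exp (q : ℂ) ^ q.den = exp 1 ^ q.num := by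
    rw [← exp_nat_mul, ← exp_int_mul]
    congr 1
    have h2 : (q.num : ℂ) = (q : ℂ) * (q.den : ℂ) := by
      have h3 := congrArg (fun z : ℚ => (z : ℂ)) (Rat.mul_den_eq_num q)
      push_cast at h3
      exact h3.symm
    rw [h2]; ring
  refine IsAlgebraic.of_pow q.den_pos ?_
  rw [h1]
  obtain ⟨n, hn | hn⟩ := q.num.eq_nat_or_neg
  · rw [hn, zpow_natCast]; exact he.pow n
  · rw [hn, zpow_neg, zpow_natCast]; exact (he.pow n).inv

theorem exp_w_al (he : Al (Real.pi : ℂ) (exp 1)) {w : ℂ} (hw : w ∈ QΛ) :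
    Al (Real.pi : ℂ) (exp w) := by
  obtain ⟨q, l, hl, rfl⟩ := hw
  rw [exp_add]
  exact (exp_rat_al he q).mul (al_of_alg hl.1)

theorem w_al {w : ℂ} (hw : w ∈ QΛ) : Al (Real.pi : ℂ) w := by
  obtain ⟨q, l, hl, rfl⟩ := hw
  exact (al_of_alg (isAlgebraic_ratCast ℚ q)).add hl.2

theorem part1 (he : Al (Real.pi : ℂ) (exp 1)) (l₁ : ℂ) (h₁ : l₁ ∈ Λ) (l₂ : ℂ) (h₂ : l₂ ∈ Λ)
    (hli : Indep l₁ l₂) (w₁ : ℂ) (hw₁ : w₁ ∈ QΛ) (w₂ : ℂ) (hw₂ : w₂ ∈ QΛ) (h : l₁ * w₂ = l₂ * w₁) :
    ∃ r : ℚ, w₁ = r * l₁ ∧ w₂ = r * l₂ := by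
  have hl₁ : l₁ ≠ 0 := by
    rintro rfl
    exact one_ne_zero (hli 1 0 (by simp)).1
  obtain ⟨t, ht⟩ : ∃ t : ℂ, t = w₁ / l₁ := ⟨_, rfl⟩
  have e₁ : w₁ = t * l₁ := by rw [ht]; field_simp
  have e₂ : w₂ = t * l₂ := by
    rw [e₁] at h
    have : l₁ * (w₂ - t * l₂) = 0 := by linear_combination h
    exact sub_eq_zero.1 ((mul_eq_zero.1 this).resolve_left hl₁)
  by_cases hr : ∃ r : ℚ, t = r
  · obtain ⟨r, hr⟩ := hr
    exact ⟨r, by rw [e₁, hr], by rw [e₂, hr]⟩
  · exfalso
    push Not at hr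
    refine Pool.Agent.W252.bw piC_transcendental ![l₁, l₂] ![1, t] (lin_of hli) (lin_of ?_) ?_ ?_ ?_ ?_
    · intro p q hpq
      by_cases hq : q = 0
      · rw [hq] at hpq
        exact ⟨by simpa using hpq, hq⟩
      · exfalso
        apply hr (-p / q)
        have hq' : (q : ℂ) ≠ 0 := by exact_mod_cast hq
        push_cast
        field_simp
        linear_combination hpq
    · intro i
      fin_cases i
      · exact h₁.2
      · exact h₂.2
    · intro j
      fin_cases j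
      · exact isAlgebraic_one
      · show Al (Real.pi : ℂ) t
        rw [ht, div_eq_mul_inv]
        exact (w_al hw₁).mul h₁.2.inv
    · intro i
      fin_cases i
      · show IsAlgebraic ℚ (exp (l₁ * 1))
        rw [mul_one]; exact h₁.1
      · show IsAlgebraic ℚ (exp (l₂ * 1))
        rw [mul_one]; exact h₂.1
    · intro i
      fin_cases i
      · show Al (Real.pi : ℂ) (exp (l₁ * t))
        rw [mul_comm, ← e₁]; exact exp_w_al he hw₁
      · show Al (Real.pi : ℂ) (exp (l₂ * t))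
        rw [mul_comm, ← e₂]; exact exp_w_al he hw₂

/-- a rational combination of `1` and `π i` with algebraic exponential -/
theorem rat_part {p q : ℚ} (h : IsAlgebraic ℚ (exp ((p : ℂ) + q * (Real.pi * I)))) : p = 0 := by
  by_contra hp
  have hq : IsAlgebraic ℚ (exp ((q : ℂ) * (Real.pi * I))) := isAlgebraic_exp_rat alg_neg_one_exp q
  have h1 : IsAlgebraic ℚ (exp (p : ℂ)) := by
    have e : exp (p : ℂ) = exp ((p : ℂ) + q * (Real.pi * I)) * (exp ((q : ℂ) * (Real.pi * I)))⁻¹ := by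
      rw [exp_add]
      have := exp_ne_zero ((q : ℂ) * (Real.pi * I))
      field_simp
    rw [e]
    exact h.mul hq.inv
  exact Pool.Agent.H340R2.LW.transcendental_cexp (p : ℂ) (isAlgebraic_ratCast ℚ p)
    (by exact_mod_cast hp) h1

theorem part2 (he : Al (Real.pi : ℂ) (exp 1)) (ℓ : ℂ) (hℓ : Conic ℓ) (hexp : IsAlgebraic ℚ (exp ℓ)) :
    ∃ q : ℚ, ℓ = q * (Real.pi * I) := by
  obtain ⟨a, b, c, d, f, hne, h⟩ := hℓ
  obtain ⟨P, hP⟩ : ∃ P : ℂ, P = Real.pi * I := ⟨_, rfl⟩
  have hP0 : P ≠ 0 := by rw [hP]; exact piI_ne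
  have hPtr : Transcendental ℚ P := by
    rw [hP]
    intro h1
    apply piC_transcendental
    have e : (Real.pi : ℂ) = -I * (Real.pi * I) := by
      linear_combination (Real.pi : ℂ) * Complex.I_mul_I
    rw [e]
    exact Pool.Agent.H340R2.LW.isAlgebraic_I.neg.mul h1
  have hlin : ∀ p q : ℚ, (p : ℂ) + q * P = 0 → p = 0 ∧ q = 0 := by
    intro p q hpq
    by_cases hq : q = 0
    · rw [hq] at hpq
      exact ⟨by simpa using hpq, hq⟩
    · exfalso
      apply hPtr
      have hq' : (q : ℂ) ≠ 0 := by exact_mod_cast hq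
      have e : P = ((-p / q : ℚ) : ℂ) := by
        push_cast
        field_simp
        linear_combination hpq
      rw [e]
      exact isAlgebraic_ratCast ℚ _
  by_contra hcon
  push Not at hcon
  rw [← hP] at h
  have hcon' : ∀ q : ℚ, ℓ ≠ q * P := by rw [hP]; exact hcon
  -- rational combinations of `1` and `π i`
  have hred : ∀ p q : ℚ, ℓ ≠ (p : ℂ) + q * P := by
    intro p q hpq
    have hp : p = 0 := by
      apply rat_part (q := q)
      rw [← hP, ← hpq]
      exact hexp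
    apply hcon' q
    rw [hpq, hp]
    push_cast
    ring
  -- `ℓ` is algebraic over `ℚ(π)`
  have hPal : Al (Real.pi : ℂ) P := by rw [hP]; exact pi_al
  have hQal : ∀ q : ℚ, Al (Real.pi : ℂ) (q : ℂ) := fun q => al_of_alg (isAlgebraic_ratCast ℚ q)
  have hℓal : Al (Real.pi : ℂ) ℓ := by
    by_cases hc : c = 0
    · rw [hc] at h
      have h1 : ((a : ℂ) + d * P) * ℓ = -(f * P ^ 2 + b * P) := by
        push_cast at h
        linear_combination h
      have h2 : (a : ℂ) + d * P ≠ 0 := by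
        intro h3
        obtain ⟨ha, hd⟩ := hlin a d h3
        rw [h3, zero_mul] at h1
        have h4 : P * ((b : ℂ) + f * P) = 0 := by linear_combination h1
        obtain ⟨hb, hf⟩ := hlin b f ((mul_eq_zero.1 h4).resolve_left hP0)
        exact hne ⟨ha, hb, hc, hd, hf⟩
      have h3 : ℓ = -(f * P ^ 2 + b * P) * ((a : ℂ) + d * P)⁻¹ := by
        rw [← h1]
        field_simp
      rw [h3]
      exact (((hQal f).mul (hPal.pow 2)).add ((hQal b).mul hPal)).neg.mul
        ((hQal a).add ((hQal d).mul hPal)).inv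
    · have hc' : (c : ℂ) ≠ 0 := by exact_mod_cast hc
      -- complete the square
      have h1 : (ℓ + ((d : ℂ) * P + a) / (2 * c)) ^ 2 =
          (((d : ℂ) * P + a) / (2 * c)) ^ 2 - (f * P ^ 2 + b * P) / c := by
        field_simp
        linear_combination 4 * (c : ℂ) * h
      have h2 : Al (Real.pi : ℂ) (((d : ℂ) * P + a) / (2 * c)) := by
        rw [div_eq_mul_inv]
        refine (((hQal d).mul hPal).add (hQal a)).mul (IsAlgebraic.inv ?_)
        have e : (2 : ℂ) * c = ((2 * c : ℚ) : ℂ) := by push_cast; ring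
        rw [e]
        exact hQal _
      have h3 : Al (Real.pi : ℂ) ((ℓ + ((d : ℂ) * P + a) / (2 * c)) ^ 2) := by
        rw [h1]
        refine (h2.pow 2).sub ?_
        rw [div_eq_mul_inv]
        exact (((hQal f).mul (hPal.pow 2)).add ((hQal b).mul hPal)).mul (hQal c).inv
      have h4 : Al (Real.pi : ℂ) (ℓ + ((d : ℂ) * P + a) / (2 * c)) :=
        IsAlgebraic.of_pow (by norm_num : 0 < 2) h3
      have h5 := h4.sub h2
      rwa [add_sub_cancel_right] at h5
  have hℓΛ : ℓ ∈ Λ := ⟨hexp, hℓal⟩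
  have hPΛ : P ∈ Λ := by rw [hP]; exact piI_mem
  have hli : Indep P ℓ := by
    intro p q hpq
    by_cases hq : q = 0
    · rw [hq] at hpq
      refine ⟨?_, hq⟩
      have h1 : (p : ℂ) * P = 0 := by simpa using hpq
      exact_mod_cast (mul_eq_zero.1 h1).resolve_right hP0
    · exfalso
      apply hcon' (-p / q)
      have hq' : (q : ℂ) ≠ 0 := by exact_mod_cast hq
      push_cast
      field_simp
      linear_combination hpq
  obtain ⟨r, hr₁, hr₂⟩ := part1 he P hPΛ ℓ hℓΛ hli ((a : ℂ) + (c * ℓ + d * P))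
    ⟨a, _, add_mem (rat_mul_mem hℓΛ c) (rat_mul_mem hPΛ d), rfl⟩ (((-b : ℚ) : ℂ) + ((-f : ℚ) : ℂ) * P)
    ⟨-b, _, rat_mul_mem hPΛ (-f), rfl⟩ (by
      push_cast
      linear_combination -h)
  by_cases hr0 : r = 0
  · rw [hr0] at hr₁ hr₂
    obtain ⟨hb, hf⟩ := hlin (-b) (-f) (by rw [hr₂]; push_cast; ring)
    have hb' : b = 0 := by linarith
    have hf' : f = 0 := by linarith
    by_cases hc : c = 0
    · rw [hc] at hr₁
      obtain ⟨ha, hd⟩ := hlin a d (by
        push_cast at hr₁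
        linear_combination hr₁)
      exact hne ⟨ha, hb', hc, hd, hf'⟩
    · apply hred (-a / c) (-d / c)
      have hc' : (c : ℂ) ≠ 0 := by exact_mod_cast hc
      push_cast at hr₁ ⊢
      field_simp
      linear_combination hr₁
  · apply hred (-b / r) (-f / r)
    have hr' : (r : ℂ) ≠ 0 := by exact_mod_cast hr0
    push_cast at hr₂ ⊢
    field_simp
    linear_combination -hr₂

theorem real_conic (he : Al (Real.pi : ℂ) (exp 1)) {x : ℝ} (hx : x ≠ 0) (hc : Conic (x : ℂ)) :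
    Transcendental ℚ (Real.exp x) := by
  intro h
  have h1 : IsAlgebraic ℚ (exp (x : ℂ)) := by
    rw [← Complex.ofReal_exp]; exact algC h
  obtain ⟨q, hq⟩ := part2 he x hc h1
  have := real_piI hx 1 (-q) (by push_cast; linear_combination hq)
  exact one_ne_zero this.1

theorem notIndep {x y z : ℝ} (hz : IsAlgebraic ℚ z)
    (h : IsAlgebraic (Algebra.adjoin ℚ ({x} : Set ℝ)) z → IsAlgebraic (Algebra.adjoin ℚ ({x} : Set ℝ)) y) :
    ¬ AlgebraicIndependent ℚ ![x, y] := by
  intro hi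
  have h1 := hi.transcendental_adjoin (s := {0}) (i := 1) (by simp)
  rw [Set.image_singleton] at h1
  simp only [Matrix.cons_val_zero, Matrix.cons_val_one] at h1
  apply h1
  apply h
  exact hz.extendScalars (algebraMap ℚ _).injective

theorem self_alg (x : ℝ) : IsAlgebraic (Algebra.adjoin ℚ ({x} : Set ℝ)) x :=
  isAlgebraic_algebraMap (⟨x, Algebra.subset_adjoin rfl⟩ : Algebra.adjoin ℚ ({x} : Set ℝ))

/-- if one of the first four numbers of the problem is algebraic then `π` and `e` are dependent -/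
theorem four (z : ℝ) (hz : z ∈ ({Real.pi + Real.exp 1, Real.pi - Real.exp 1, Real.pi * Real.exp 1,
    Real.pi / Real.exp 1} : Set ℝ)) (hza : IsAlgebraic ℚ z) :
    ¬ AlgebraicIndependent ℚ ![Real.pi, Real.exp 1] := by
  have hpi := Real.pi_ne_zero
  have he := (Real.exp_pos 1).ne'
  refine notIndep hza (fun h => ?_)
  have hp := self_alg Real.pi
  rcases hz with rfl | rfl | rfl | rfl
  · have := h.sub hp
    rwa [add_sub_cancel_left] at this
  · have := hp.sub h
    rwa [sub_sub_cancel] at this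
  · have := hp.inv.mul h
    rwa [inv_mul_cancel_left₀ hpi] at this
  · have := hp.mul h.inv
    rwa [inv_div, mul_div_cancel₀ _ hpi] at this

/-- Either `π` and `e` are algebraically independent, and so `π + e`, `π - e`, `π e`, `π / e` transcendental, or the
statements (1), (2), (3) hold. -/
theorem result : (AlgebraicIndependent ℚ ![Real.pi, Real.exp 1] ∧
      Transcendental ℚ (Real.pi + Real.exp 1) ∧ Transcendental ℚ (Real.pi - Real.exp 1) ∧
      Transcendental ℚ (Real.pi * Real.exp 1) ∧ Transcendental ℚ (Real.pi / Real.exp 1)) ∨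
    ((∀ l₁ ∈ Λ, ∀ l₂ ∈ Λ, Indep l₁ l₂ → ∀ w₁ ∈ QΛ, ∀ w₂ ∈ QΛ, l₁ * w₂ = l₂ * w₁ →
        ∃ r : ℚ, w₁ = r * l₁ ∧ w₂ = r * l₂) ∧
      (∀ ℓ : ℂ, Conic ℓ → IsAlgebraic ℚ (exp ℓ) → ∃ q : ℚ, ℓ = q * (Real.pi * I)) ∧
      (∀ r s : ℚ, 0 < r → Transcendental ℚ (Real.exp (√((s : ℝ) ^ 2 + r * Real.pi ^ 2) - s))) ∧
      (∀ r : ℚ, r ≠ 0 → Transcendental ℚ (Real.exp (r * Real.pi ^ 2)))) := by
  by_cases h : AlgebraicIndependent ℚ ![Real.pi, Real.exp 1]
  · exact Or.inl ⟨h, fun h1 => four _ (by simp) h1 h, fun h1 => four _ (by simp) h1 h,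
      fun h1 => four _ (by simp) h1 h, fun h1 => four _ (by simp) h1 h⟩
  · right
    have he : Al (Real.pi : ℂ) (exp 1) := by
      have := real_al piC_transcendental h
      have e : ((Real.exp 1 : ℝ) : ℂ) = exp 1 := by push_cast; rfl
      rwa [e] at this
    have hpi : 0 < Real.pi := Real.pi_pos
    refine ⟨fun l₁ h₁ l₂ h₂ hli w₁ hw₁ w₂ hw₂ hh => part1 he l₁ h₁ l₂ h₂ hli w₁ hw₁ w₂ hw₂ hh,
      fun ℓ hc hexp => part2 he ℓ hc hexp, fun r s hr => ?_, fun r hr => ?_⟩
    · have hr' : (0 : ℝ) < r := by exact_mod_cast hr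
      obtain ⟨y, hy⟩ : ∃ y : ℝ, y = √((s : ℝ) ^ 2 + r * Real.pi ^ 2) := ⟨_, rfl⟩
      have hy2 : y ^ 2 = (s : ℝ) ^ 2 + r * Real.pi ^ 2 := by
        rw [hy, Real.sq_sqrt (by positivity)]
      rw [← hy]
      refine real_conic he ?_ ⟨2 * s, 0, 1, 0, r, ?_, ?_⟩
      · intro h0
        have h1 : y = s := by linarith
        rw [h1] at hy2
        have : 0 < (r : ℝ) * Real.pi ^ 2 := by positivity
        linarith
      · rintro ⟨-, -, h1, -⟩
        exact one_ne_zero h1
      · have hy2' : (y : ℂ) ^ 2 = (s : ℂ) ^ 2 + r * (Real.pi : ℂ) ^ 2 := by exact_mod_cast hy2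
        push_cast
        linear_combination hy2' + (r : ℂ) * (Real.pi : ℂ) ^ 2 * Complex.I_sq
    · refine real_conic he ?_ ⟨1, 0, 0, 0, r, ?_, ?_⟩
      · have hr' : (r : ℝ) ≠ 0 := by exact_mod_cast hr
        positivity
      · rintro ⟨h1, -⟩
        exact one_ne_zero h1
      · push_cast
        linear_combination (r : ℂ) * (Real.pi : ℂ) ^ 2 * Complex.I_sq

end Pool.Agent.Results.MP_a2f59b_nt.ConicExponentials
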