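import Mathlib
import Pool.Agent.X2.AdicRel

/-!
# The `b`-adic complexity of the digits of `π + e`, `π - e`, `π e`, `π / e`, read backwards

No hypothesis is assumed.  Let `λ(x; m, n)` be the `b`-adic complexity of the word formed by the digits of `x`
at the places `m + n, m + n - 1, …, m + 1` in base `b` (the logarithm to the base `b` of the size of the smallest
rational number, with denominator prime to `b`, whose `b`-adic expansion begins with this word; it is the
complexity of the word with respect to feedback shift registers with carry).  For rational `x` it is bounded.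

For any two `x ≠ y` of the four numbers and every `ε > 0`, with a constant `C` which does not depend on the base:

* `λ(x; m, n) + λ(y; m, n) ≥ (n - (1 + ε) m) / (2 + ε) - C` for the pairs `π + e`, `π - e`; `π ± e`, `π / e`;
  `π e`, `π / e`;
* `λ(x; m, n) + λ(y; m, n) ≥ (n - (2 + ε) m) / (3 + ε) - C` for the pairs `π ± e`, `π e`.

So in every window at least three of the four complexities are `≥ (n - (2 + ε) m) / (6 + 2 ε) - C`.
The general theorem concerns finitely many numbers `x₁, …, x_r` with a nontrivial relation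
`∑ₛ (A₀ₛ + A₁ₛ x₁ + … + A_rₛ x_r) e ^ (kₛ) = 0` with integers `A_iₛ` and `D + 1` different exponents `kₛ`.
-/

set_option autoImplicit false

namespace Pool.Agent.Results.MP_a2f59b_nt.JointAdicComplexity

open Finset

/-- the `k`-th digit of `x` after the point in base `b` -/
noncomputable def digit (b : ℕ) (x : ℝ) (k : ℕ) : ℤ := ⌊x * (b : ℝ) ^ k⌋ % (b : ℤ)

/-- the least `M` such that the `b`-adic expansion of some rational number `f / g`, with `g > 0` prime
to `b` and `|f| ≤ M`, `g ≤ M`, begins with the letters `c 0, c 1, …, c (n - 1)`, that is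
`f / g ≡ ∑_{i < n} c i b ^ i` modulo `b ^ n` -/
noncomputable def size (b n : ℕ) (c : ℕ → ℤ) : ℕ :=
  sInf {M : ℕ | ∃ f g : ℤ, 0 < g ∧ Int.gcd g b = 1 ∧
    (b : ℤ) ^ n ∣ g * (∑ i ∈ range n, c i * (b : ℤ) ^ i) - f ∧ |f| ≤ M ∧ g ≤ M}

/-- the `b`-adic complexity of the digits of `x` in base `b` at the places `m + n, m + n - 1, …, m + 1`, in this
order -/
noncomputable def complexity (b : ℕ) (x : ℝ) (m n : ℕ) : ℝ :=
  Real.logb b (size b n (fun i => digit b x (m + n - i)))

/-- the four numbers -/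
noncomputable def four : Fin 4 → ℝ :=
  ![Real.pi + Real.exp 1, Real.pi - Real.exp 1, Real.pi * Real.exp 1, Real.pi / Real.exp 1]

/-- the sum of the complexities of `x` and `y` is at least `(n - (w + ε) m) / (w + 1 + ε) - C` -/
def Pair (w : ℝ) (x y : ℝ) : Prop := ∀ ε : ℝ, 0 < ε → ∃ C : ℝ, ∀ b : ℕ, 2 ≤ b → ∀ m n : ℕ,
  ((n : ℝ) - (w + ε) * m) / (w + 1 + ε) - C ≤ complexity b x m n + complexity b y m n

/-- the general theorem: relations with `D + 1` different powers of `e` -/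
lemma general (r D : ℕ) (x : Fin r → ℝ) (k : Fin (D + 1) → ℕ) (hk : Function.Injective k) (hk0 : k 0 = 0)
    (A₀ : Fin (D + 1) → ℤ) (A : Fin r → Fin (D + 1) → ℤ)
    (hrel : ∑ s, ((A₀ s : ℝ) + ∑ i, x i * A i s) * Real.exp (k s) = 0)
    (hv : ∃ s, (A₀ s : ℝ) + ∑ i, x i * A i s ≠ 0) (ε : ℝ) (hε : 0 < ε) :
    ∃ C : ℝ, ∀ b : ℕ, 2 ≤ b → ∀ m n : ℕ,
      ((n : ℝ) - (D + ε) * m) / (D + 1 + ε) - C ≤ ∑ i, complexity b (x i) m n := by
  obtain ⟨c, hc, hy⟩ := Pool.Agent.W472.AC.e_meas D (fun s => (k s : ℤ))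
    (fun i j h => hk (by simpa using h)) (by simp [hk0]) (fun i => by positivity) ε hε
  obtain ⟨C, hC⟩ := Pool.Agent.X2.AdicRel.joint x _ (by positivity) hc hy A₀ A (by
    refine Eq.trans (sum_congr rfl fun s _ => ?_) hrel
    simp) hv
  refine ⟨C, fun b hb m n => ?_⟩
  have := hC b hb m n
  rw [show (D : ℝ) + 1 + ε = D + ε + 1 by ring]
  exact this

lemma pair_of (D : ℕ) (x y : ℝ) (k : Fin (D + 1) → ℕ) (hk : Function.Injective k) (hk0 : k 0 = 0)
    (A₀ A₁ A₂ : Fin (D + 1) → ℤ)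
    (hrel : ∑ s, ((A₀ s : ℝ) + (x * A₁ s + y * A₂ s)) * Real.exp (k s) = 0)
    (hv : ∃ s, (A₀ s : ℝ) + (x * A₁ s + y * A₂ s) ≠ 0) : Pair D x y := by
  intro ε hε
  obtain ⟨C, hC⟩ := general 2 D ![x, y] k hk hk0 A₀ ![A₁, A₂] (by simpa using hrel) (by simpa using hv) ε hε
  refine ⟨C, fun b hb m n => ?_⟩
  have := hC b hb m n
  rw [Fin.sum_univ_two] at this
  simpa using this

lemma Pair.symm {w x y : ℝ} (h : Pair w x y) : Pair w y x := by
  intro ε hε
  obtain ⟨C, hC⟩ := h ε hε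
  exact ⟨C, fun b hb m n => by rw [add_comm (complexity b y m n)]; exact hC b hb m n⟩

lemma Pair.mono {x y : ℝ} (h : Pair 1 x y) : Pair 2 x y := by
  intro ε hε
  obtain ⟨C, hC⟩ := h ε hε
  refine ⟨C, fun b hb m n => le_trans ?_ (hC b hb m n)⟩
  have hm : (0 : ℝ) ≤ m := Nat.cast_nonneg m
  have hn : (0 : ℝ) ≤ n := Nat.cast_nonneg n
  have : ((n : ℝ) - (2 + ε) * m) / (2 + 1 + ε) ≤ ((n : ℝ) - (1 + ε) * m) / (1 + 1 + ε) := by
    rw [div_le_div_iff₀ (by linarith) (by linarith)]
    nlinarith [mul_nonneg hm hε.le]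
  linarith

/-- **The `b`-adic complexities of the digits of `π + e`, `π - e`, `π e`, `π / e`, read backwards.** -/
theorem result :
    -- pairs, with a linear relation with two powers of `e`
    (Pair 1 (Real.pi + Real.exp 1) (Real.pi - Real.exp 1) ∧
      Pair 1 (Real.pi + Real.exp 1) (Real.pi / Real.exp 1) ∧
      Pair 1 (Real.pi - Real.exp 1) (Real.pi / Real.exp 1) ∧
      Pair 1 (Real.pi * Real.exp 1) (Real.pi / Real.exp 1)) ∧
    -- the other pairs
    (Pair 2 (Real.pi + Real.exp 1) (Real.pi * Real.exp 1) ∧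
      Pair 2 (Real.pi - Real.exp 1) (Real.pi * Real.exp 1)) ∧
    -- at least three of the four complexities are large
    (∀ ε : ℝ, 0 < ε → ∃ C : ℝ, ∀ b : ℕ, 2 ≤ b → ∀ m n : ℕ, ∃ i₀ : Fin 4, ∀ i : Fin 4, i ≠ i₀ →
      ((n : ℝ) - (2 + ε) * m) / (6 + 2 * ε) - C ≤ complexity b (four i) m n) ∧
    -- the general theorem
    (∀ (r D : ℕ) (x : Fin r → ℝ) (k : Fin (D + 1) → ℕ), Function.Injective k → k 0 = 0 →
      ∀ (A₀ : Fin (D + 1) → ℤ) (A : Fin r → Fin (D + 1) → ℤ),
      ∑ s, ((A₀ s : ℝ) + ∑ i, x i * A i s) * Real.exp (k s) = 0 →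
      (∃ s, (A₀ s : ℝ) + ∑ i, x i * A i s ≠ 0) → ∀ ε : ℝ, 0 < ε →
      ∃ C : ℝ, ∀ b : ℕ, 2 ≤ b → ∀ m n : ℕ,
        ((n : ℝ) - (D + ε) * m) / (D + 1 + ε) - C ≤ ∑ i, complexity b (x i) m n) ∧
    -- rational numbers have bounded complexity
    (∀ x : ℝ, ¬ Irrational x → ∀ b : ℕ, 2 ≤ b → ∃ (m₀ : ℕ) (C : ℝ), ∀ m n : ℕ, m₀ ≤ m →
      complexity b x m n ≤ C) := by
  have hpi := Real.pi_pos
  have he := Real.exp_pos 1
  have he2 : Real.exp 2 = Real.exp 1 * Real.exp 1 := by rw [← Real.exp_add]; norm_num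
  have hid : Function.Injective (fun s : Fin 2 => (s : ℕ)) := fun a b h => Fin.ext h
  have hid3 : Function.Injective (fun s : Fin 3 => (s : ℕ)) := fun a b h => Fin.ext h
  have p01 : Pair 1 (Real.pi + Real.exp 1) (Real.pi - Real.exp 1) := by
    have := pair_of 1 (Real.pi + Real.exp 1) (Real.pi - Real.exp 1) (fun s => (s : ℕ)) hid rfl
      ![0, 2] ![-1, 0] ![1, 0] (by simp [Fin.sum_univ_two]; ring) ⟨1, by simp⟩
    exact_mod_cast this
  have p03 : Pair 1 (Real.pi + Real.exp 1) (Real.pi / Real.exp 1) := by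
    have := pair_of 1 (Real.pi + Real.exp 1) (Real.pi / Real.exp 1) (fun s => (s : ℕ)) hid rfl
      ![0, 1] ![-1, 0] ![0, 1] (by simp [Fin.sum_univ_two]; field_simp; ring)
      ⟨1, by simp; positivity⟩
    exact_mod_cast this
  have p13 : Pair 1 (Real.pi - Real.exp 1) (Real.pi / Real.exp 1) := by
    have := pair_of 1 (Real.pi - Real.exp 1) (Real.pi / Real.exp 1) (fun s => (s : ℕ)) hid rfl
      ![0, -1] ![-1, 0] ![0, 1] (by simp [Fin.sum_univ_two]; field_simp; ring)
      ⟨0, by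
        have h1 := Real.exp_one_lt_d9
        have h2 := Real.pi_gt_three
        simp
        intro h
        linarith⟩
    exact_mod_cast this
  have p23 : Pair 1 (Real.pi * Real.exp 1) (Real.pi / Real.exp 1) := by
    have hinj : Function.Injective (![0, 2] : Fin 2 → ℕ) := by decide
    have := pair_of 1 (Real.pi * Real.exp 1) (Real.pi / Real.exp 1) ![0, 2] hinj rfl
      ![0, 0] ![-1, 0] ![0, 1] (by simp [Fin.sum_univ_two, he2]; field_simp; ring)
      ⟨1, by simp⟩
    exact_mod_cast this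
  have p02 : Pair 2 (Real.pi + Real.exp 1) (Real.pi * Real.exp 1) := by
    have := pair_of 2 (Real.pi + Real.exp 1) (Real.pi * Real.exp 1) (fun s => (s : ℕ)) hid3 rfl
      ![0, 0, 1] ![0, -1, 0] ![1, 0, 0] (by simp [Fin.sum_univ_three, he2]; ring) ⟨2, by simp⟩
    exact_mod_cast this
  have p12 : Pair 2 (Real.pi - Real.exp 1) (Real.pi * Real.exp 1) := by
    have := pair_of 2 (Real.pi - Real.exp 1) (Real.pi * Real.exp 1) (fun s => (s : ℕ)) hid3 rfl
      ![0, 0, 1] ![0, 1, 0] ![-1, 0, 0] (by simp [Fin.sum_univ_three, he2]; ring) ⟨2, by simp⟩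
    exact_mod_cast this
  refine ⟨⟨p01, p03, p13, p23⟩, ⟨p02, p12⟩, ?_, general, ?_⟩
  · intro ε hε
    have hall : ∀ i j : Fin 4, i ≠ j → Pair 2 (four i) (four j) := by
      intro i j hij
      fin_cases i <;> fin_cases j <;> first | exact absurd rfl hij | skip
      · exact p01.mono
      · exact p02
      · exact p03.mono
      · exact p01.mono.symm
      · exact p12
      · exact p13.mono
      · exact p02.symm
      · exact p12.symm
      · exact p23.mono
      · exact p03.mono.symm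
      · exact p13.mono.symm
      · exact p23.mono.symm
    have hex : ∀ i j : Fin 4, ∃ C : ℝ, i ≠ j → ∀ b : ℕ, 2 ≤ b → ∀ m n : ℕ,
        ((n : ℝ) - (2 + ε) * m) / (2 + 1 + ε) - C ≤
          complexity b (four i) m n + complexity b (four j) m n := by
      intro i j
      by_cases hij : i = j
      · exact ⟨0, fun h => absurd hij h⟩
      · obtain ⟨C, hC⟩ := hall i j hij ε hε
        exact ⟨C, fun _ => hC⟩
    choose C hC using hex
    refine ⟨(∑ i, ∑ j, |C i j|), ?_⟩
    intro b hb m n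
    obtain ⟨i₀, -, hi₀⟩ := exists_min_image univ (fun i => complexity b (four i) m n) ⟨0, mem_univ _⟩
    refine ⟨i₀, fun i hi => ?_⟩
    have h1 := hC i i₀ hi b hb m n
    have h2 := hi₀ i (mem_univ i)
    have h3 : C i i₀ ≤ ∑ i, ∑ j, |C i j| := by
      calc C i i₀ ≤ |C i i₀| := le_abs_self _
        _ ≤ ∑ j, |C i j| := single_le_sum (f := fun j => |C i j|) (fun _ _ => abs_nonneg _) (mem_univ i₀)
        _ ≤ ∑ i, ∑ j, |C i j| := single_le_sum (f := fun i => ∑ j, |C i j|)
            (fun _ _ => sum_nonneg fun _ _ => abs_nonneg _) (mem_univ i)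
    have h4 : 0 ≤ ∑ i, ∑ j, |C i j| := sum_nonneg fun _ _ => sum_nonneg fun _ _ => abs_nonneg _
    have h5 : ((n : ℝ) - (2 + ε) * m) / (6 + 2 * ε) = ((n : ℝ) - (2 + ε) * m) / (2 + 1 + ε) / 2 := by
      rw [div_div]; congr 1; ring
    rw [h5]
    linarith
  · intro x hx b hb
    obtain ⟨m₀, M, h⟩ := Pool.Agent.X2.AdicJoint.rational hx b hb
    refine ⟨m₀, Real.logb b M, fun m n hm => ?_⟩
    have h1 := h m n hm
    have hbR : (1 : ℝ) < b := by exact_mod_cast (by omega : 1 < b)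
    have h2 : 1 ≤ size b n (fun i => digit b x (m + n - i)) :=
      Pool.Agent.X2.AdicJoint.size_pos n _
    unfold complexity
    apply Real.logb_le_logb_of_le hbR
    · exact_mod_cast h2
    · exact_mod_cast h1

end Pool.Agent.Results.MP_a2f59b_nt.JointAdicComplexity
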